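import Mathlib
import Pool.Agent.Work.MP_db815f_an.Defs
import Pool.Agent.Work.MP_db815f_an.Final

set_option autoImplicit false

namespace Pool.Agent.Results.MP_db815f_an.ExtinctionProfileExists

open Set Pool.Agent.Work.MP_db815f_an

/-- There is an admissible profile `(ξ₀, g)`; moreover `g` can be taken to be an even function on
the whole line which is `C⁴` on the open interval `(-ξ₀, ξ₀)`. -/
theorem result : ∃ (ξ₀ : ℝ) (g : ℝ → ℝ), AdmissibleProfile ξ₀ g ∧
    (∀ ξ, g (-ξ) = g ξ) ∧ ContDiffOn ℝ 4 g (Ioo (-ξ₀) ξ₀) :=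
  exists_profile

end Pool.Agent.Results.MP_db815f_an.ExtinctionProfileExists
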